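import Pool.Agent.helper73.BRZ.Spec

/-! Row brz:DSO (MP_a2a22c). -/

set_option autoImplicit false

namespace Pool.Agent.BRZ

open Matrix Module Pool.Agent.PR Pool.Agent.SHL TensorProduct MeasureTheory
open scoped ENNReal ContDiff RealInnerProductSpace FourierTransform SchwartzMap

theorem DSO_inner {N : ℕ} (m n : Fin N → ℤ) :
    ⟪(zv m : EE N), zv n⟫ = ((∑ i, n i * m i : ℤ) : ℝ) := by
  unfold zv
  rw [PiLp.inner_apply]
  push_cast
  refine Finset.sum_congr rfl fun i _ => ?_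
  simp

theorem DSO_zv_ne {N : ℕ} {n : Fin N → ℤ} (hn : n ≠ 0) : (zv n : EE N) ≠ 0 := by
  intro h
  apply hn
  funext i
  have h1 := congrArg (fun x : EE N => x i) h
  simpa [zv] using h1

theorem DSO_summable {N : ℕ} (f : EE N → ℝ) (hf : HasCompactSupport f)
    (A : EE N ≃ₗ[ℝ] EE N) : Summable (fun n : Fin N → ℤ => f (A (zv n))) := by
  obtain ⟨R, hR⟩ := hf.isCompact.isBounded.subset_closedBall (0 : EE N)
  set L := (A.symm : EE N →ₗ[ℝ] EE N).toContinuousLinearMap with hL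
  have hfin : {n : Fin N → ℤ | ∀ i, n i ∈ Set.Icc (-⌈‖L‖ * R⌉) ⌈‖L‖ * R⌉}.Finite :=
    Set.Finite.pi' fun i => Set.finite_Icc _ _
  apply summable_of_finite_support
  refine hfin.subset fun n hn => ?_
  have h1 : A (zv n) ∈ tsupport f := subset_tsupport f (by simpa using hn)
  have h2 := hR h1
  rw [mem_closedBall_zero_iff] at h2
  have h3 : ‖(zv n : EE N)‖ ≤ ‖L‖ * R := by
    have h4 : L (A (zv n)) = zv n := by
      rw [hL]
      simp
    calc ‖(zv n : EE N)‖ = ‖L (A (zv n))‖ := by rw [h4]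
      _ ≤ ‖L‖ * ‖A (zv n)‖ := L.le_opNorm _
      _ ≤ ‖L‖ * R := mul_le_mul_of_nonneg_left h2 (norm_nonneg _)
  intro i
  have h5 : ‖(zv n : EE N) i‖ ≤ ‖(zv n : EE N)‖ := PiLp.norm_apply_le _ i
  have h6 : |(n i : ℝ)| ≤ ‖L‖ * R := by
    have h7 : ‖(zv n : EE N) i‖ = |(n i : ℝ)| := by simp [zv]
    rw [← h7]
    exact h5.trans h3
  have h8 := abs_le.1 h6
  have h9 := Int.le_ceil (‖L‖ * R)
  constructor
  · have : (-(⌈‖L‖ * R⌉ : ℤ) : ℝ) ≤ (n i : ℝ) := by linarith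
    exact_mod_cast this
  · have : (n i : ℝ) ≤ (⌈‖L‖ * R⌉ : ℤ) := by linarith
    exact_mod_cast this

theorem DSO (hRAL : RAL_stmt) (hPSB : PSB_stmt) (hBAS : BAS_stmt) (hDUA : DUA_stmt) :
    DSO_stmt := by
  intro d D _ _ _ hd S f hf
  have hN : 1 ≤ d * d := Nat.mul_pos hd hd
  obtain ⟨-, -, -, -, -, -, -, -, -, hdl0, -⟩ := hRAL d D hd S
  have hf0 : f 0 = 0 := by
    by_contra h
    exact hf.2.2.2.1 0 (subset_tsupport f (by simpa using h)) hdl0
  obtain ⟨C, hC⟩ := hPSB (d * d) hN f hf.1 hf.2.1 hf0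
  obtain ⟨c, hc, hD⟩ := hDUA d D hd S
  refine ⟨C / c ^ 2, fun Y g hg => ?_⟩
  obtain ⟨A, e, hdet, -, he⟩ := hBAS d D hd S Y g hg
  have hsum := DSO_summable f hf.2.1 A
  have hfun : (fun n : Fin (d * d) → ℤ => f (A (zv n))) =
      (fun z : Y.1 => f (S.act z g)) ∘ e := by
    funext n
    simp only [Function.comp_apply, he n]
  have hs1 : Summable (fun z : Y.1 => f (S.act z g)) := by
    rw [hfun] at hsum
    exact (Equiv.summable_iff e).1 hsum
  refine ⟨hs1, ?_⟩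
  have hts : ∑' z : Y.1, f (S.act z g) = ∑' n : Fin (d * d) → ℤ, f (A (zv n)) := by
    rw [hfun]
    exact (Equiv.tsum_eq e _).symm
  have hnu : 0 < S.nu g Y := by
    unfold SO.nu
    apply div_pos
    · exact lt_of_le_of_ne (abs_nonneg _) (Ne.symm hg)
    · have := Y.2.2.2
      exact_mod_cast Nat.pos_of_ne_zero this
  set ν := S.nu g Y with hν
  have hr : 0 < (c / ν) ^ ((1 : ℝ) / ((d * d : ℕ) : ℝ)) := Real.rpow_pos_of_pos (div_pos hc hnu) _
  set r := (c / ν) ^ ((1 : ℝ) / ((d * d : ℕ) : ℝ)) with hrdef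
  have hrN : r ^ (d * d) = c / ν := by
    rw [hrdef, ← Real.rpow_natCast, ← Real.rpow_mul (div_pos hc hnu).le]
    have : (1 : ℝ) / ((d * d : ℕ) : ℝ) * ((d * d : ℕ) : ℝ) = 1 := by
      apply div_mul_cancel₀
      exact_mod_cast (Nat.pos_iff_ne_zero.1 hN)
    rw [this, Real.rpow_one]
  have hmain := hC A r hr (by
    intro n hn
    have hin : ∀ x : EE (d * d), ⟪A x, LinearMap.adjoint (A.symm : EE (d * d) →ₗ[ℝ] EE (d * d)) (zv n)⟫
        = ⟪x, zv n⟫ := by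
      intro x
      rw [LinearMap.adjoint_inner_right]
      simp
    have hz' : LinearMap.adjoint (A.symm : EE (d * d) →ₗ[ℝ] EE (d * d)) (zv n) ≠ 0 := by
      intro h0
      have h1 := hin (zv n)
      rw [h0, inner_zero_right] at h1
      exact DSO_zv_ne hn (inner_self_eq_zero.1 h1.symm)
    have h2 := hD Y g _ hg hz' (by
      intro z hz
      obtain ⟨m, hm⟩ := e.surjective ⟨z, hz⟩
      refine ⟨∑ i, n i * m i, ?_⟩
      have h3 := he m
      rw [hm] at h3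
      rw [h3, hin, DSO_inner])
    have h4 : c / ν ≤ ‖LinearMap.adjoint (A.symm : EE (d * d) →ₗ[ℝ] EE (d * d)) (zv n)‖ ^ (d * d) := by
      rw [div_le_iff₀ hnu]
      linarith
    rw [← hrN] at h4
    exact le_of_pow_le_pow_left₀ (Nat.pos_iff_ne_zero.1 hN) (norm_nonneg _) h4)
  rw [hdet] at hmain
  rw [hts]
  refine hmain.trans (le_of_eq ?_)
  have hr2 : r ^ (2 * (d * d)) = (c / ν) ^ 2 := by
    rw [mul_comm, pow_mul, hrN]
  rw [hr2]
  field_simp

end Pool.Agent.BRZ
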